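import Pool.Agent.Results.MP_fd8838_nt.ExceptionalCapture
import Pool.Agent.R482.ST.Ae

/-!
# Möller's maps: the orbits which start near powers, near iterates and near other sequences

Let `f_n`, `n = 0, 1, 2, …`, be positive functions on `(a, ∞)`, `a ≥ 0`, such that `f_n(t) / t` is nondecreasing. For almost
every `α > a`, for all but finitely many `n`, the orbits of ALL integers `x` with `||x| - f_n(α)| ≤ L_n` come down to values
`≤ y_n`, and (if they stay positive) to elements `≤ y_n` of the exceptional set, as soon as the sums of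
`L_n y_n ^ (-c) (1 + log (f_n(t) / f_n(s)))` converge. For `f_n(t) = t ^ (v_n)`, `v_n ≥ 1`, this is the case if
`∑ v_n L_n y_n ^ (-c) < ∞`: for almost every `α > 1` the orbits of all integers within distance `1` of `α ^ n` come down to
values `≤ n ^ (3 / c)`, for all large `n`.
-/

set_option autoImplicit false

namespace Pool.Agent.Results.MP_fd8838_nt.CapturedNearPowers

open MeasureTheory Filter

/-- the map `T(n) = n / d` if `d ∣ n` and `(m n - r_j) / d` if `n ≡ j mod d`, `1 ≤ j < d`; the points of a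
`T`-orbit that are not divisible by `d` form the `H`-orbit -/
def T (d m : ℕ) (r : ℕ → ℤ) (n : ℤ) : ℤ :=
  if (d : ℤ) ∣ n then n / d else (m * n - r (n % d).toNat) / d

/-- the exceptional set `E(d, m, R)`, in terms of `T`: the integers `e > 0` not divisible by `d` such that,
as long as the orbit of `e` stays positive, its terms not divisible by `d` (the terms of the `H`-orbit)
are `≥ e` -/
def E (d m : ℕ) (r : ℕ → ℤ) : Set ℤ :=
  {e : ℤ | 0 < e ∧ ¬ (d : ℤ) ∣ e ∧ ∀ k : ℕ, (∀ j ≤ k, 0 < (T d m r)^[j] e) →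
    ¬ (d : ℤ) ∣ (T d m r)^[k] e → e ≤ (T d m r)^[k] e}

/-- some `T^k(x)` is at most `Y` in absolute value, and if the orbit of `x` stays positive then some `T^k(x)` is an
element `≤ Y` of the exceptional set -/
def Captured (d m : ℕ) (r : ℕ → ℤ) (Y : ℝ) (x : ℤ) : Prop :=
  (∃ k : ℕ, |(((T d m r)^[k] x : ℤ) : ℝ)| ≤ Y) ∧
    ((∀ k : ℕ, 0 < (T d m r)^[k] x) →
      ∃ k : ℕ, (T d m r)^[k] x ∈ E d m r ∧ (((T d m r)^[k] x : ℤ) : ℝ) ≤ Y)

/-- the functions `f n` are positive on `(a, ∞)`, `a ≥ 0`, and `f n x / x` is nondecreasing there -/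
def Starshaped (a : ℝ) (f : ℕ → ℝ → ℝ) : Prop :=
  0 ≤ a ∧ ∀ n : ℕ, ∀ x y : ℝ, a < x → x ≤ y → 0 < f n x ∧ f n x / x ≤ f n y / y

theorem key (d m : ℕ) (hd : 2 ≤ d) (hm : 2 ≤ m) (hc : Nat.Coprime m d)
    (hle : (m : ℝ) ≤ (d : ℝ) ^ ((d : ℝ) / ((d : ℝ) - 1))) :
    ∃ c : ℝ, 0 < c ∧ ∀ r : ℕ → ℤ, (∀ j : ℕ, 1 ≤ j → j < d → r j ≡ m * j [ZMOD d]) →
      ∃ C : ℝ, 0 < C ∧ ∀ y : ℕ → ℝ, (∀ n, 1 ≤ y n) → ∀ n, ∀ X : ℝ, 1 ≤ X →
        {x | x ∈ {x : ℤ | ¬ Captured d m r (y n) x} ∧ |(x : ℝ)| ≤ X}.Finite ∧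
        ({x | x ∈ {x : ℤ | ¬ Captured d m r (y n) x} ∧ |(x : ℝ)| ≤ X}.ncard : ℝ) ≤ (2 * C * (y n) ^ (-c)) * X := by
  obtain ⟨c, hc0, h⟩ := ExceptionalCapture.result d m hd hm hc hle
  refine ⟨c, hc0, fun r hr => ?_⟩
  obtain ⟨C, hC, hcount⟩ := h r hr
  refine ⟨C, hC, fun y hy => ?_⟩
  set S : ℕ → Set ℤ := fun n => {x : ℤ | (∀ k : ℕ, y n < |(((T d m r)^[k] x : ℤ) : ℝ)|) ∨
    ((∀ k : ℕ, 0 < (T d m r)^[k] x) ∧ ∀ k : ℕ, (T d m r)^[k] x ∈ E d m r → y n < (((T d m r)^[k] x : ℤ) : ℝ))}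
    with hS
  have key : ∀ n, ∀ X : ℝ, 1 ≤ X → {x | x ∈ S n ∧ |(x : ℝ)| ≤ X}.Finite ∧
      ({x | x ∈ S n ∧ |(x : ℝ)| ≤ X}.ncard : ℝ) ≤ (2 * C * (y n) ^ (-c)) * X := by
    intro n X hX
    have hb : ∀ P : ℤ → Prop, {x : ℤ | P x ∧ |(x : ℝ)| ≤ X}.Finite := by
      intro P
      refine (Set.finite_Icc (-⌊X⌋) ⌊X⌋).subset ?_
      rintro k ⟨-, h1⟩
      rw [abs_le] at h1
      rw [Set.mem_Icc]
      constructor
      · rw [neg_le]
        apply Int.le_floor.2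
        push_cast
        linarith [h1.1]
      · exact Int.le_floor.2 h1.2
    refine ⟨hb _, ?_⟩
    obtain ⟨h1, h2⟩ := hcount X (y n) hX (hy n)
    have hf1 : {x : ℤ | 1 ≤ x ∧ (x : ℝ) ≤ X ∧ (∀ k : ℕ, 0 < (T d m r)^[k] x) ∧
          ∀ k : ℕ, (T d m r)^[k] x ∈ E d m r → y n < (((T d m r)^[k] x : ℤ) : ℝ)}.Finite := by
      refine (hb (fun _ => True)).subset ?_
      rintro x ⟨h3, h4, -⟩
      refine ⟨trivial, ?_⟩
      rw [abs_of_nonneg (by exact_mod_cast (by omega : (0 : ℤ) ≤ x))]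
      exact h4
    have hf2 : {x : ℤ | |(x : ℝ)| ≤ X ∧ ∀ k : ℕ, y n < |(((T d m r)^[k] x : ℤ) : ℝ)|}.Finite := by
      refine (hb (fun _ => True)).subset ?_
      rintro x ⟨h3, -⟩
      exact ⟨trivial, h3⟩
    have hsub : {x | x ∈ S n ∧ |(x : ℝ)| ≤ X} ⊆
        {x : ℤ | 1 ≤ x ∧ (x : ℝ) ≤ X ∧ (∀ k : ℕ, 0 < (T d m r)^[k] x) ∧
          ∀ k : ℕ, (T d m r)^[k] x ∈ E d m r → y n < (((T d m r)^[k] x : ℤ) : ℝ)} ∪
        {x : ℤ | |(x : ℝ)| ≤ X ∧ ∀ k : ℕ, y n < |(((T d m r)^[k] x : ℤ) : ℝ)|} := by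
      rintro x ⟨hx | ⟨hx1, hx2⟩, hxX⟩
      · right
        exact ⟨hxX, hx⟩
      · left
        have h3 : 0 < x := hx1 0
        exact ⟨by omega, (le_abs_self _).trans hxX, hx1, hx2⟩
    have h3 := (Set.ncard_le_ncard hsub (hf1.union hf2)).trans (Set.ncard_union_le _ _)
    have h4 : ({x | x ∈ S n ∧ |(x : ℝ)| ≤ X}.ncard : ℝ) ≤ C * X / (y n) ^ c + C * X / (y n) ^ c := by
      refine le_trans ?_ (add_le_add h1 h2)
      exact_mod_cast h3
    refine h4.trans (le_of_eq ?_)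
    rw [Real.rpow_neg (by linarith [hy n])]
    field_simp
    ring
  intro n X hX
  have hEq : {x | x ∈ {x : ℤ | ¬ Captured d m r (y n) x} ∧ |(x : ℝ)| ≤ X} ⊆ {x | x ∈ S n ∧ |(x : ℝ)| ≤ X} := by
    rintro x ⟨hx, hxX⟩
    refine ⟨?_, hxX⟩
    by_contra hcon
    apply hx
    rw [hS] at hcon
    refine ⟨?_, fun hpos => ?_⟩
    · by_contra h1
      push Not at h1
      exact hcon (Or.inl h1)
    · by_contra h1
      push Not at h1
      exact hcon (Or.inr ⟨hpos, h1⟩)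
  obtain ⟨h1, h2⟩ := key n X hX
  refine ⟨h1.subset hEq, le_trans ?_ h2⟩
  exact_mod_cast Set.ncard_le_ncard hEq h1

/-- **Theorem.** Let `d, m ≥ 2` be coprime with `m ≤ d ^ (d / (d - 1))`. There is `c > 0` such that for all admissible
`R`, all `y_n ≥ 1` and all `L_n ≥ 0`:
(1) Let `f_n` be starshaped functions on `(a, ∞)`, bounded below by a positive constant at each point, such that for all
`t > s > a` the sum of `L_n y_n ^ (-c) (1 + log (f_n(t) / f_n(s)))` converges and `L_n ≤ f_n(s)` for all large `n`. Then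
for almost every `α > a` and all but finitely many `n`, for EVERY integer `x` with `||x| - f_n(α)| ≤ L_n`: some `T^k(x)` is
at most `y_n` in absolute value, and if the orbit of `x` stays positive then some `T^k(x)` is an element `≤ y_n` of the
exceptional set `E(d, m, R)`.
(2) If `v_n ≥ 1`, the sum of `v_n L_n y_n ^ (-c)` converges and for each `s > 1` one has `L_n ≤ s ^ (v_n)` for all large
`n`, then the same is true for `f_n(α) = α ^ (v_n)` and almost every `α > 1`. -/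
theorem result (d m : ℕ) (hd : 2 ≤ d) (hm : 2 ≤ m) (hc : Nat.Coprime m d)
    (hle : (m : ℝ) ≤ (d : ℝ) ^ ((d : ℝ) / ((d : ℝ) - 1))) :
    ∃ c : ℝ, 0 < c ∧ ∀ r : ℕ → ℤ, (∀ j : ℕ, 1 ≤ j → j < d → r j ≡ m * j [ZMOD d]) →
      ∀ y L : ℕ → ℝ, (∀ n, 1 ≤ y n) → (∀ n, 0 ≤ L n) →
        (∀ (a : ℝ) (f : ℕ → ℝ → ℝ), Starshaped a f → (∀ s : ℝ, a < s → ∃ b : ℝ, 0 < b ∧ ∀ n, b ≤ f n s) →
          (∀ s : ℝ, a < s → ∀ᶠ n in atTop, L n ≤ f n s) →
          (∀ s t : ℝ, a < s → s ≤ t → Summable fun n => L n * (y n) ^ (-c) * (1 + Real.log (f n t / f n s))) →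
          ∃ N : Set ℝ, volume N = 0 ∧ ∀ α : ℝ, a < α → α ∉ N → ∃ n₀ : ℕ, ∀ n : ℕ, n₀ ≤ n →
            ∀ x : ℤ, |(|x| : ℝ) - f n α| ≤ L n → Captured d m r (y n) x) ∧
        (∀ v : ℕ → ℝ, (∀ n, 1 ≤ v n) → (∀ s : ℝ, 1 < s → ∀ᶠ n in atTop, L n ≤ s ^ (v n)) →
          (Summable fun n => v n * L n * (y n) ^ (-c)) →
          ∃ N : Set ℝ, volume N = 0 ∧ ∀ α : ℝ, 1 < α → α ∉ N → ∃ n₀ : ℕ, ∀ n : ℕ, n₀ ≤ n →
            ∀ x : ℤ, |(|x| : ℝ) - α ^ (v n)| ≤ L n → Captured d m r (y n) x) := by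
  obtain ⟨c, hc0, h⟩ := key d m hd hm hc hle
  refine ⟨c, hc0, fun r hr y L hy hL => ?_⟩
  obtain ⟨C, hC, hcount⟩ := h r hr
  have hnn : ∀ n, 0 ≤ 2 * C * (y n) ^ (-c) := fun n => by
    have := hy n
    positivity
  refine ⟨fun a f hf hb hLf hsum => ?_, fun v hv hLf hsum => ?_⟩
  · obtain ⟨N, hN, hN2⟩ := Pool.Agent.R482.ST.ae_windows (fun n => {x : ℤ | ¬ Captured d m r (y n) x})
      (fun x : ℤ => |(x : ℝ)|) hf hb (C := fun n => 2 * C * (y n) ^ (-c)) hnn hL hLf (fun s t hs hst => by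
        refine ((hsum s t hs hst).mul_left (2 * C)).congr fun n => ?_
        ring) (hcount y hy)
    refine ⟨N, hN, fun α hα hαN => ?_⟩
    obtain ⟨n₀, hn⟩ := hN2 α hα hαN
    refine ⟨n₀, fun n hn1 x hw => ?_⟩
    by_contra hcon
    exact absurd (hn n hn1 x hcon) (not_lt.2 hw)
  · obtain ⟨N, hN, hN2⟩ := Pool.Agent.R482.ST.pow_ae_windows (fun n => {x : ℤ | ¬ Captured d m r (y n) x})
      (fun x : ℤ => |(x : ℝ)|) hv (C := fun n => 2 * C * (y n) ^ (-c)) hnn hL hLf (by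
        refine (hsum.mul_left (2 * C)).congr fun n => ?_
        ring) (hcount y hy)
    refine ⟨N, hN, fun α hα hαN => ?_⟩
    obtain ⟨n₀, hn⟩ := hN2 α hα hαN
    refine ⟨n₀, fun n hn1 x hw => ?_⟩
    by_contra hcon
    exact absurd (hn n hn1 x hcon) (not_lt.2 hw)

end Pool.Agent.Results.MP_fd8838_nt.CapturedNearPowers
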