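import Pool.Agent.R332.EX.Moller

set_option autoImplicit false

/-!
# Exponential sequences and the exceptional sets of Möller's maps

Let `gcd(m, d) = 1`, `2 ≤ m ≤ d^(d/(d-1))`, let `a` be coprime to `d`, `|a| ≥ 2`, and let `f` be a
nonconstant polynomial with integer coefficients. There are `δ, K > 0` such that for ALL integers `b`
coprime to `d` and ALL integers `c` every interval of length `Y ≥ 1` contains at most `K Y^(1 - δ)` of the
`n` with `f n ≥ 0` for which `b a^(f n) + c` is in the exceptional set `E(d, m, R)`. For all `n` of the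
interval but `K Y^(1 - δ)` of them the `H`-orbit of `x = b a^(f n) + c` (if `x > 0` and `d ∤ x`) has a
positive term `≤ Y^(-κ + ε) x`, `κ = 1 - (d - 1) / d * log_d m`.
-/

namespace Pool.Agent.Results.MP_fd8838_nt.ExponentialExceptional

open Polynomial Pool.Agent.Y927.GP

/-- The generalised Hasse-Syracuse map `H(x) = (m x - r_j) / d ^ a(x)`, where `j` is the residue of
`x` modulo `d` and `d ^ a(x)` is the largest power of `d` dividing `m x - r_j`. -/
noncomputable def H (d m : ℕ) (r : ℤ → ℤ) (x : ℤ) : ℤ :=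
  (m * x - r (x % d)) / (d : ℤ) ^ multiplicity (d : ℤ) (m * x - r (x % d))

/-- The iterate `H^k(y)` is defined: the orbit does not stop before (it stops at `z` if
`m z ≤ r_j`, where `z ≡ j` modulo `d`). -/
def Defined (d m : ℕ) (r : ℤ → ℤ) (y : ℤ) (k : ℕ) : Prop :=
  ∀ i < k, r ((H d m r)^[i] y % d) < m * (H d m r)^[i] y

/-- The exceptional set `E(d, m, R)`: the positive integers `n` not divisible by `d` such that
`H^k(n) ≥ n` for all `k ≥ 1` for which `H^k(n)` is defined. -/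
def E (d m : ℕ) (r : ℤ → ℤ) : Set ℤ :=
  {n | 0 < n ∧ ¬ (d : ℤ) ∣ n ∧ ∀ k, 1 ≤ k → Defined d m r n k → n ≤ (H d m r)^[k] n}

/-- The exponential sequence `n ↦ b a ^ (f n) + c`, for the integers `n` with `f n ≥ 0`. -/
def expSeq (a b c : ℤ) (f : ℤ[X]) (n : ℤ) : ℤ := b * a ^ (f.eval n).toNat + c

/-- **Main theorem.** Let `gcd(m, d) = 1`, `2 ≤ m ≤ d^(d/(d-1))`, let `R` be admissible, let `a` be an
integer coprime to `d` with `|a| ≥ 2` and let `f` be a polynomial of degree at least `1` with integer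
coefficients.
1. There are `δ, K > 0` such that for all integers `b` coprime to `d`, all integers `c` and every interval
`(X, X + Y]`, `Y ≥ 1`, at most `K Y^(1 - δ)` of the integers `n` of the interval have `f n ≥ 0` and
`b a ^ (f n) + c ∈ E(d, m, R)`.
2. For every `ε > 0` there are `δ, K > 0` such that for all integers `b` coprime to `d`, all integers `c`
and every interval `(X, X + Y]`, `Y ≥ 1`, for all but `K Y^(1 - δ)` of the `n` of the interval for which
`f n ≥ 0` and `x = b a ^ (f n) + c` is positive and not divisible by `d` the `H`-orbit of `x` has a term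
`0 < H^k(x) ≤ Y^(-κ + ε) x`, where `κ = 1 - (d - 1) / d * log m / log d > 0`. -/
theorem result (d m : ℕ) (hd : 2 ≤ d) (hm : 2 ≤ m) (hc : Nat.Coprime m d)
    (hle : (m : ℝ) ≤ (d : ℝ) ^ ((d : ℝ) / ((d : ℝ) - 1))) (r : ℤ → ℤ)
    (hr : ∀ j : ℤ, 1 ≤ j → j < d → r j ≡ m * j [ZMOD d]) (a : ℤ) (ha : 2 ≤ |a|)
    (hac : IsCoprime a (d : ℤ)) (f : ℤ[X]) (hf : 1 ≤ f.natDegree) :
    (∃ δ K : ℝ, 0 < δ ∧ 0 < K ∧ ∀ b c : ℤ, IsCoprime b (d : ℤ) → ∀ (X : ℤ) (Y : ℝ), 1 ≤ Y →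
      ({n : ℤ | X < n ∧ (n : ℝ) ≤ X + Y ∧ 0 ≤ f.eval n ∧ expSeq a b c f n ∈ E d m r}.ncard : ℝ) ≤
        K * Y ^ (1 - δ)) ∧
    (∀ ε : ℝ, 0 < ε → ∃ δ K : ℝ, 0 < δ ∧ 0 < K ∧ ∀ b c : ℤ, IsCoprime b (d : ℤ) →
      ∀ (X : ℤ) (Y : ℝ), 1 ≤ Y →
      ({n : ℤ | X < n ∧ (n : ℝ) ≤ X + Y ∧ 0 ≤ f.eval n ∧ 0 < expSeq a b c f n ∧
        ¬ (d : ℤ) ∣ expSeq a b c f n ∧
        ¬ ∃ k : ℕ, Defined d m r (expSeq a b c f n) k ∧ 0 < (H d m r)^[k] (expSeq a b c f n) ∧
          (((H d m r)^[k] (expSeq a b c f n) : ℤ) : ℝ) ≤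
            Y ^ (-(1 - ((d : ℝ) - 1) / d * (Real.log m / Real.log d)) + ε) *
              ((expSeq a b c f n : ℤ) : ℝ)}.ncard : ℝ) ≤ K * Y ^ (1 - δ)) := by
  classical
  have hr' : ∀ j : ℤ, 1 ≤ j → j < d → (d : ℤ) ∣ m * j - r j := fun j h1 h2 => (hr j h1 h2).dvd
  obtain ⟨hκ0, hκ1⟩ := Mo.kap_bounds hd hm hc hle
  refine ⟨?_, fun ε hε => ?_⟩
  · obtain ⟨δ, K, hδ, hδ1, hK, h⟩ := Pool.Agent.R332.EX.desc_exp hd hm hc hle hr' hf ha hac
      (ε := Mo.kap d m / 2) (by positivity)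
    refine ⟨δ, K + 1, hδ, by positivity, fun b c hb X Y hY => ?_⟩
    apply ncard_int (P := fun n : ℤ => 0 ≤ f.eval n ∧ expSeq a b c f n ∈ E d m r)
    intro A hA hE
    rcases hY.eq_or_lt with h1 | hY1
    · have h2 := Finset.card_le_card hA
      rw [Int.card_Ioc, ← h1, Nat.floor_one] at h2
      have h3 : (A.card : ℝ) ≤ 1 := by
        have : A.card ≤ 1 := by omega
        exact_mod_cast this
      rw [← h1, Real.one_rpow]
      linarith
    have hYp : 0 < Y := by linarith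
    have h2 : (A.card : ℝ) ≤ K * Y ^ (1 - δ) := by
      apply h b c hb X Y hY A hA
      intro n hn
      obtain ⟨h3, h4, h5, h6⟩ := hE n hn
      refine ⟨h3, h4, h5, fun k hk1 hk2 => ?_⟩
      have hx : (0 : ℝ) < ((expSeq a b c f n : ℤ) : ℝ) := by exact_mod_cast h4
      have h7 : Y ^ (-Mo.kap d m + Mo.kap d m / 2) < 1 :=
        Real.rpow_lt_one_of_one_lt_of_neg hY1 (by linarith)
      have h8 : Y ^ (-Mo.kap d m + Mo.kap d m / 2) * ((expSeq a b c f n : ℤ) : ℝ) <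
          ((expSeq a b c f n : ℤ) : ℝ) := by nlinarith
      refine lt_of_lt_of_le h8 ?_
      rcases Nat.eq_zero_or_pos k with h0 | h0
      · subst h0
        exact le_rfl
      · exact_mod_cast h6 k h0 hk1
    have h3 : 0 ≤ Y ^ (1 - δ) := by positivity
    nlinarith
  · obtain ⟨δ, K, hδ, hδ1, hK, h⟩ := Pool.Agent.R332.EX.desc_exp hd hm hc hle hr' hf ha hac hε
    refine ⟨δ, K, hδ, hK, fun b c hb X Y hY => ?_⟩
    apply ncard_int (P := fun n : ℤ => 0 ≤ f.eval n ∧ 0 < expSeq a b c f n ∧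
        ¬ (d : ℤ) ∣ expSeq a b c f n ∧
        ¬ ∃ k : ℕ, Defined d m r (expSeq a b c f n) k ∧ 0 < (H d m r)^[k] (expSeq a b c f n) ∧
          (((H d m r)^[k] (expSeq a b c f n) : ℤ) : ℝ) ≤
            Y ^ (-(1 - ((d : ℝ) - 1) / d * (Real.log m / Real.log d)) + ε) *
              ((expSeq a b c f n : ℤ) : ℝ))
    intro A hA hE
    apply h b c hb X Y hY A hA
    intro n hn
    obtain ⟨h1, h2, h3, h4⟩ := hE n hn
    refine ⟨h1, h2, h3, fun k hk1 hk2 => ?_⟩
    by_contra hcon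
    push Not at hcon
    exact h4 ⟨k, hk1, hk2, hcon⟩

end Pool.Agent.Results.MP_fd8838_nt.ExponentialExceptional
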