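import Pool.Agent.R978.ML.C
import Pool.Agent.H319R2.Sparse

set_option autoImplicit false

/-!
# Möller's maps for `d = 2`, `m = 3`: the reciprocal masses of the levels above the exceptional set

`d = 2`, `m = 3`, `R = {r}` with `r` odd and prime to `3`. For `y ≥ 0` the level `j` above the elements
`≤ y` of the exceptional set `E` consists of the odd `n ≥ 1` such that `H^j(n)` is the first term of the
`H`-orbit of `n` that is negative or an element `≤ y` of `E`. The sum of `1 / n` over the level `j`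
converges, and it tends to a limit `L(y)` as `j → ∞`; the mass of the level is distributed over the values
of the sum of the first `j` exponents of `2` like the sum of `j` independent geometric random variables;
`(1/2) log (4/3) - L(y) = O(y ^ (-c))`; and `E` is finite iff `L(y) = (1/2) log (4/3)` for some `y`.
-/

namespace Pool.Agent.Results.MP_fd8838_nt.LevelMasses

open Filter Topology

/-- the exponent of `2` in `3 x - r` -/
noncomputable def a (r x : ℤ) : ℕ := multiplicity (2 : ℤ) (3 * x - r)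

/-- the map of the problem for `d = 2`, `m = 3`, `R = {r}` -/
noncomputable def H (r x : ℤ) : ℤ := (3 * x - r) / 2 ^ a r x

/-- The exceptional set, as in the frozen statement: the odd `n > 0` with no iterate below `n`. -/
def E (r : ℤ) : Set ℤ := {n : ℤ | 0 < n ∧ ¬ (2 : ℤ) ∣ n ∧ ∀ k : ℕ, ¬ (H r)^[k] n < n}

/-- `x` is negative or an element `≤ y` of the exceptional set -/
def Stopped (r : ℤ) (y : ℕ) (x : ℤ) : Prop := x < 0 ∨ (x ∈ E r ∧ x ≤ y)

/-- the level `j` above the elements `≤ y` of the exceptional set: the odd `n ≥ 1` such that `H^j(n)` is the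
first stopped term of the orbit of `n` -/
def Level (r : ℤ) (y j : ℕ) : Set ℕ :=
  {n : ℕ | n % 2 = 1 ∧ Stopped r y ((H r)^[j] (n : ℤ)) ∧ ∀ i < j, ¬ Stopped r y ((H r)^[i] (n : ℤ))}

/-- the sum of the first `j` exponents `a(n) + a(H n) + ... + a(H^(j-1) n)` -/
noncomputable def exps (r : ℤ) (j : ℕ) (n : ℤ) : ℕ := ∑ i ∈ Finset.range j, a r ((H r)^[i] n)

/-- the sum of the reciprocals of the members of a set of positive integers -/
noncomputable def mass (A : Set ℕ) : ℝ := ∑' n : A, (1 : ℝ) / ((n : ℕ) : ℝ)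

/-- Among the odd positive integers, those with the property `P` have natural density `δ`. -/
def HasDensity (P : ℕ → Prop) (δ : ℝ) : Prop :=
  Tendsto (fun X : ℕ => 2 / (X : ℝ) * ({n : ℕ | 1 ≤ n ∧ n ≤ X ∧ n % 2 = 1 ∧ P n}.ncard : ℝ)) atTop (𝓝 δ)

theorem H_eq (r : ℤ) : H r = Pool.Agent.R978.ML.Hs (-r) := by
  funext x
  unfold H Pool.Agent.R978.ML.Hs a Pool.Agent.R978.ML.va
  rw [← sub_eq_add_neg]

theorem a_eq (r : ℤ) : a r = Pool.Agent.R978.ML.va (-r) := by
  funext x
  unfold a Pool.Agent.R978.ML.va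
  rw [← sub_eq_add_neg]

theorem E_eq (r : ℤ) : E r = Pool.Agent.R978.ML.EE (-r) := by
  ext n
  unfold E Pool.Agent.R978.ML.EE
  rw [Set.mem_ofPred_eq, Set.mem_ofPred_eq, H_eq]
  constructor
  · rintro ⟨h1, h2, h3⟩
    exact ⟨h1, by omega, fun k => not_lt.1 (h3 k)⟩
  · rintro ⟨h1, h2, h3⟩
    exact ⟨h1, by omega, fun k => not_lt.2 (h3 k)⟩

theorem Stopped_eq (r : ℤ) (y : ℕ) : Stopped r y = Pool.Agent.R978.ML.St (-r) y := by
  funext x
  unfold Stopped Pool.Agent.R978.ML.St
  rw [E_eq]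

theorem Level_eq (r : ℤ) (y j : ℕ) : Level r y j = Pool.Agent.R978.ML.Lv (-r) y j := by
  unfold Level Pool.Agent.R978.ML.Lv
  rw [Stopped_eq, H_eq]

theorem exps_eq (r : ℤ) (j : ℕ) (n : ℤ) : exps r j n = Pool.Agent.R978.ML.tot (-r) j n := by
  unfold exps Pool.Agent.R978.ML.tot
  rw [a_eq, H_eq]

/-- There is a constant `c > 0.049`, larger than `1 - h` where `h = 0.94995...` is the binary entropy of
`log 2 / log 3` in bits, such that for every odd `r` prime to `3` there are a nondecreasing `δ : ℕ → [0, 1]`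
and `C > 0` with:

1. for every `y` the odd `n ≥ 1` whose orbit has a stopped term (a negative term or a term in `E(2,3,{r})`
   that is `≤ y`) have density `δ y` among the odd positive integers, and `1 - δ y ≤ C y^(-c)` for `y ≥ 1`;
2. for all `y` and `j` the sum of `1 / n` over the level `j` converges, and it tends to
   `(1/2) log (4/3) δ y` as `j → ∞`;
3. for every `y`, every `ε > 0`, all large `j` and all `K`: the sum over `k < K` of the differences, in
   absolute value, between the part of this sum with `exps r j n = k + 1` and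
   `(1/2) log (4/3) δ y binom (k, j - 1) / 2^(k + 1)` is at most `ε`;
4. `E(2,3,{r})` is finite iff for some `y` the sum of `1 / n` over the level `j` tends to
   `(1/2) log (4/3)` as `j → ∞`. -/
theorem result : ∃ c : ℝ, 0.049 < c ∧
    1 - Real.binEntropy (Real.log 2 / Real.log 3) / Real.log 2 < c ∧
    ∀ r : ℤ, Odd r → ¬ (3 : ℤ) ∣ r → ∃ (δ : ℕ → ℝ) (C : ℝ), 0 < C ∧ Monotone δ ∧
      (∀ y, 0 ≤ δ y ∧ δ y ≤ 1) ∧
      (∀ y, HasDensity (fun n => ∃ j : ℕ, Stopped r y ((H r)^[j] (n : ℤ))) (δ y)) ∧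
      (∀ y : ℕ, 1 ≤ y → 1 - δ y ≤ C / (y : ℝ) ^ c) ∧
      (∀ y j : ℕ, Summable (fun n : Level r y j => (1 : ℝ) / ((n : ℕ) : ℝ))) ∧
      (∀ y : ℕ, Tendsto (fun j : ℕ => mass (Level r y j)) atTop (𝓝 (Real.log (4 / 3) / 2 * δ y))) ∧
      (∀ y : ℕ, ∀ ε : ℝ, 0 < ε → ∃ j₀ : ℕ, ∀ j : ℕ, j₀ ≤ j → ∀ K : ℕ, ∑ k ∈ Finset.range K,
        |mass {n : ℕ | n ∈ Level r y j ∧ exps r j (n : ℤ) = k + 1} -
          Real.log (4 / 3) / 2 * δ y * ((k.choose (j - 1) : ℝ) / 2 ^ (k + 1))| ≤ ε) ∧
      ((E r).Finite ↔ ∃ y : ℕ, Tendsto (fun j : ℕ => mass (Level r y j)) atTop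
        (𝓝 (Real.log (4 / 3) / 2))) := by
  obtain ⟨c, hc1, hc, h⟩ := Pool.Agent.R978.ML.main
  have hq : Real.qaryEntropy 2 (Real.log 2 / Real.log 3) = Real.binEntropy (Real.log 2 / Real.log 3) := by
    unfold Real.qaryEntropy
    norm_num
  rw [hq] at hc1
  have hb : Real.binEntropy (Real.log 2 / Real.log 3) / Real.log 2 < 0.951 := Pool.Agent.H319R2.beta_lt
  refine ⟨c, by linarith, hc1, fun r hr hr3 => ?_⟩
  obtain ⟨δ, hmono, h01, ⟨C, hC, hrate⟩, hfin, hall⟩ := h (-r) hr.neg (by rwa [dvd_neg])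
  have hT : ∀ y : ℕ, Tendsto (fun j : ℕ => mass (Level r y j)) atTop (𝓝 (Real.log (4 / 3) / 2 * δ y)) := by
    intro y
    obtain ⟨_, _, h3, _⟩ := hall y
    refine h3.congr fun j => ?_
    unfold mass
    rw [Level_eq]
  refine ⟨δ, C, hC, hmono, h01, ?_, hrate, ?_, hT, ?_, ?_⟩
  · intro y
    obtain ⟨h1, _⟩ := hall y
    have h2 := h1.const_mul 2
    rw [mul_div_cancel₀ (δ y) (by norm_num : (2 : ℝ) ≠ 0)] at h2
    unfold HasDensity
    rw [H_eq, Stopped_eq]
    refine h2.congr fun X => ?_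
    unfold Pool.Agent.H499R2.ND.cnt
    ring
  · intro y j
    obtain ⟨_, h2, _⟩ := hall y
    rw [Level_eq]
    exact h2 j
  · intro y ε hε
    obtain ⟨_, _, _, h4⟩ := hall y
    obtain ⟨j0, hj0⟩ := h4 ε hε
    refine ⟨j0, fun j hj K => ?_⟩
    refine le_trans (le_of_eq ?_) (hj0 j hj K)
    apply Finset.sum_congr rfl
    intro k _
    have e : {n : ℕ | n ∈ Level r y j ∧ exps r j (n : ℤ) = k + 1} =
        {n : ℕ | n ∈ Pool.Agent.R978.ML.Lv (-r) y j ∧ Pool.Agent.R978.ML.tot (-r) j (n : ℤ) = k + 1} := by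
      ext n
      rw [Set.mem_ofPred_eq, Set.mem_ofPred_eq, Level_eq, exps_eq]
    unfold mass
    rw [e]
  · rw [E_eq, hfin]
    have hl : 0 < Real.log (4 / 3) := Real.log_pos (by norm_num)
    constructor
    · rintro ⟨y, hy⟩
      refine ⟨y, ?_⟩
      have := hT y
      rwa [hy, mul_one] at this
    · rintro ⟨y, hy⟩
      refine ⟨y, ?_⟩
      have h7 := tendsto_nhds_unique (hT y) hy
      have h8 : Real.log (4 / 3) / 2 * (δ y - 1) = 0 := by linear_combination h7
      rcases mul_eq_zero.1 h8 with h9 | h9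
      · linarith
      · linarith

end Pool.Agent.Results.MP_fd8838_nt.LevelMasses
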