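import Pool.Agent.R978.ML.E

set_option autoImplicit false

/-!
# Möller's maps for `d = 2`, `m = 3`: the law of the minima of the orbits

`d = 2`, `m = 3`, `R = {r}` with `r` odd and prime to `3`. The minimum of an `H`-orbit that stays positive
is an element of the exceptional set `E`. For every `e ∈ E` the odd `n ≥ 1` whose orbit has minimum `e` have
a density `D(e)` among the odd positive integers; `D(e) > 0` if `3 ∤ e`; the `D(e)` and the density of the
`n` whose orbit leaves the positive integers add up to `1`; the sum of the `D(e)` with `e > y` is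
`O(y ^ (-c))`; and `E` is finite iff the `D(e)`, `e ∈ E` prime to `3`, are bounded away from zero.
-/

namespace Pool.Agent.Results.MP_fd8838_nt.MinimaOfOrbits

open Filter Topology

/-- the map of the problem for `d = 2`, `m = 3`, `R = {r}` -/
noncomputable def H (r x : ℤ) : ℤ := (3 * x - r) / 2 ^ multiplicity (2 : ℤ) (3 * x - r)

/-- The exceptional set, as in the frozen statement: the odd `n > 0` with no iterate below `n`. -/
def E (r : ℤ) : Set ℤ := {n : ℤ | 0 < n ∧ ¬ (2 : ℤ) ∣ n ∧ ∀ k : ℕ, ¬ (H r)^[k] n < n}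

/-- `e` is the minimum of the `H`-orbit of `n` -/
def IsMin (r e n : ℤ) : Prop := (∃ j : ℕ, (H r)^[j] n = e) ∧ ∀ i : ℕ, e ≤ (H r)^[i] n

/-- Among the odd positive integers, those with the property `P` have natural density `δ`. -/
def HasDensity (P : ℤ → Prop) (δ : ℝ) : Prop :=
  Tendsto (fun X : ℕ => 2 / (X : ℝ) * ({n : ℕ | 1 ≤ n ∧ n ≤ X ∧ n % 2 = 1 ∧ P n}.ncard : ℝ)) atTop (𝓝 δ)

theorem H_eq (r : ℤ) : H r = Pool.Agent.R978.ML.Hs (-r) := by
  funext x
  unfold H Pool.Agent.R978.ML.Hs Pool.Agent.R978.ML.va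
  rw [← sub_eq_add_neg]

theorem E_eq (r : ℤ) : E r = Pool.Agent.R978.ML.EE (-r) := by
  ext n
  unfold E Pool.Agent.R978.ML.EE
  rw [Set.mem_ofPred_eq, Set.mem_ofPred_eq, H_eq]
  constructor
  · rintro ⟨h1, h2, h3⟩
    exact ⟨h1, by omega, fun k => not_lt.1 (h3 k)⟩
  · rintro ⟨h1, h2, h3⟩
    exact ⟨h1, by omega, fun k => not_lt.2 (h3 k)⟩

theorem density_of {P : ℤ → Prop} {δ : ℝ}
    (h : Pool.Agent.H499R2.ND.Dn (fun n : ℕ => n % 2 = 1 ∧ P (n : ℤ)) (δ / 2)) : HasDensity P δ := by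
  unfold HasDensity
  have h1 := h.const_mul 2
  rw [mul_div_cancel₀ δ (by norm_num : (2 : ℝ) ≠ 0)] at h1
  refine h1.congr fun X => ?_
  unfold Pool.Agent.H499R2.ND.cnt
  ring

/-- There is a constant `c > 1 - h`, `c > 0`, where `h = 0.94995...` is the binary entropy of
`log 2 / log 3` in bits, such that for every odd `r` prime to `3` there are `D : ℤ → ℝ`, `η ≥ 0` and `C > 0`
with:

1. `η` is the density, among the odd positive integers, of the `n` whose orbit has a negative term; `η = 0`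
   if `r < 0`;
2. for every `e ∈ E(2,3,{r})` the odd `n ≥ 1` whose orbit has minimum `e` have density `D e ≥ 0` among the
   odd positive integers, and `D e > 0` if `3 ∤ e`;
3. the sum of the `D e` over `E(2,3,{r})` converges and equals `1 - η`;
4. for `y ≥ 1` and every finite set `S` of elements `> y` of `E(2,3,{r})` the sum of the `D e`, `e ∈ S`, is at
   most `C y^(-c)`;
5. `E(2,3,{r})` is finite iff there is `ε > 0` with `D e ≥ ε` for all `e ∈ E(2,3,{r})` prime to `3`. -/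
theorem result : ∃ c : ℝ, 0 < c ∧ 1 - Real.binEntropy (Real.log 2 / Real.log 3) / Real.log 2 < c ∧
    ∀ r : ℤ, Odd r → ¬ (3 : ℤ) ∣ r → ∃ (D : ℤ → ℝ) (η C : ℝ), 0 < C ∧ 0 ≤ η ∧ (r < 0 → η = 0) ∧
      HasDensity (fun n => ∃ j : ℕ, (H r)^[j] n < 0) η ∧
      (∀ e ∈ E r, 0 ≤ D e ∧ (¬ (3 : ℤ) ∣ e → 0 < D e) ∧ HasDensity (fun n => IsMin r e n) (D e)) ∧
      HasSum (fun e : E r => D e) (1 - η) ∧
      (∀ y : ℕ, 1 ≤ y → ∀ S : Finset ℤ, (∀ e ∈ S, e ∈ E r ∧ (y : ℤ) < e) →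
        ∑ e ∈ S, D e ≤ C / (y : ℝ) ^ c) ∧
      ((E r).Finite ↔ ∃ ε : ℝ, 0 < ε ∧ ∀ e ∈ E r, ¬ (3 : ℤ) ∣ e → ε ≤ D e) := by
  obtain ⟨c, hc1, hc, h⟩ := Pool.Agent.R978.ML.min_main
  have hq : Real.qaryEntropy 2 (Real.log 2 / Real.log 3) = Real.binEntropy (Real.log 2 / Real.log 3) := by
    unfold Real.qaryEntropy
    norm_num
  rw [hq] at hc1
  refine ⟨c, hc, hc1, fun r hr hr3 => ?_⟩
  obtain ⟨D, η, C, hC, h0, h1, h2, h3, h4, h5, h6⟩ := h (-r) hr.neg (by rwa [dvd_neg])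
  rw [E_eq]
  refine ⟨D, η, C, hC, h0, fun h => h1 (by omega), ?_, ?_, h4, h5, h6⟩
  · rw [H_eq]
    exact density_of h2
  · intro e he
    obtain ⟨g1, g2, g3⟩ := h3 e he
    refine ⟨g1, g2, ?_⟩
    unfold IsMin
    rw [H_eq]
    exact density_of g3

end Pool.Agent.Results.MP_fd8838_nt.MinimaOfOrbits
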